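import Pool.Agent.Lib.MP_9cc368_co.MirSharp

namespace Pool.Agent.Results.MP_9cc368_co.MirrorApprox

open Pool.Agent.Lib.MP_9cc368_co Filter

theorem shift {f g h : ℕ → ℕ} {C α : ℝ} (hα : 1 / 2 ≤ α)
    (hC : ∀ n : ℕ, 1 ≤ n → |(f n : ℝ) - g n| ≤ C * (n : ℝ) ^ α)
    (h1 : ∀ n, g n ≤ h n + (8 * n.sqrt + 36)) (h2 : ∀ n, h n ≤ g n + (8 * n.sqrt + 36)) :
    ∃ C : ℝ, ∀ n : ℕ, 1 ≤ n → |(f n : ℝ) - h n| ≤ C * (n : ℝ) ^ α := by
  refine ⟨C + 44, fun n hn => ?_⟩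
  have n1 : (1 : ℝ) ≤ n := by exact_mod_cast hn
  have a := abs_le.1 (hC n hn)
  have b1 : (g n : ℝ) ≤ h n + (8 * n.sqrt + 36) := by exact_mod_cast h1 n
  have b2 : (h n : ℝ) ≤ g n + (8 * n.sqrt + 36) := by exact_mod_cast h2 n
  have c : (n.sqrt : ℝ) ≤ (n : ℝ) ^ α := Real.nat_sqrt_le_real_sqrt.trans
    (by rw [Real.sqrt_eq_rpow]; exact Real.rpow_le_rpow_of_exponent_le n1 hα)
  have d : (1 : ℝ) ≤ (n : ℝ) ^ α := Real.one_le_rpow n1 (by linarith)
  exact abs_le.2 ⟨by linarith [a.1], by linarith [a.2]⟩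

theorem big (K : ℝ) {γ : ℝ} (h : γ < 1) : ∃ E : ℕ, K * ((E : ℝ) + 1) ^ γ ≤ E := by
  have t : Tendsto (fun E : ℕ => (E : ℝ) + 1) atTop atTop :=
    tendsto_atTop_add_const_right _ _ tendsto_natCast_atTop_atTop
  have := (((tendsto_rpow_neg_atTop (sub_pos.2 h)).comp t).const_mul K).eventually
    (gt_mem_nhds (by simp : K * 0 < (1 / 2 : ℝ)))
  obtain ⟨E, e1, e2⟩ := (this.and (eventually_ge_atTop 1)).exists
  have E1 : (1 : ℝ) ≤ E := by exact_mod_cast e2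
  refine ⟨E, ?_⟩
  rw [show γ = -(1 - γ) + 1 by ring, Real.rpow_add (by linarith), Real.rpow_one, ← mul_assoc]
  simp only [Function.comp] at e1
  nlinarith

/-- The prefix palindromic length functions and the mirror functions agree up to `O(n ^ α)` if and
only if `α` is at least one half. -/
theorem result (α : ℝ) :
    (∀ f : ℕ → ℕ,
      (∃ g ∈ Realisable, ∃ C : ℝ, ∀ n : ℕ, 1 ≤ n → |(f n : ℝ) - g n| ≤ C * (n : ℝ) ^ α) ↔
      (∃ g, Mirror g ∧ ∃ C : ℝ, ∀ n : ℕ, 1 ≤ n → |(f n : ℝ) - g n| ≤ C * (n : ℝ) ^ α)) ↔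
    1 / 2 ≤ α := by
  refine ⟨fun H => not_lt.1 fun hα => ?_, fun hα f => ⟨?_, ?_⟩⟩
  · obtain ⟨g, ⟨k, u, rfl⟩, C, hC⟩ := (H tent).2 ⟨tent, tent_mirror, 0, fun n _ => by simp⟩
    obtain ⟨E, hE⟩ := big (|C| * (6 * 102 ^ 2) ^ max α 0) (γ := 2 * max α 0)
      (by rcases max_choice α 0 with h | h <;> linarith)
    obtain ⟨n, n1, n2⟩ := far u E
    rcases Nat.eq_zero_or_pos n with rfl | n0
    · rw [ppl_zero, tent_mirror.1] at n2
      omega
    have n3 : (n : ℝ) ≤ 6 * 102 ^ 2 * ((E : ℝ) + 1) ^ (2 : ℝ) := by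
      rw [Real.rpow_two, mul_assoc, ← mul_pow]
      exact_mod_cast n1
    have n4 : (n : ℝ) ^ α ≤ (6 * 102 ^ 2) ^ max α 0 * ((E : ℝ) + 1) ^ (2 * max α 0) := by
      rw [Real.rpow_mul (by positivity), ← Real.mul_rpow (by positivity) (by positivity)]
      exact (Real.rpow_le_rpow_of_exponent_le (by exact_mod_cast n0) (le_max_left _ _)).trans
        (Real.rpow_le_rpow (by positivity) n3 (le_max_right _ _))
    have n5 : |(tent n : ℝ) - PPL u n| ≤ E := by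
      refine (hC n n0).trans (le_trans ?_ hE)
      rw [mul_assoc]
      exact mul_le_mul (le_abs_self C) n4 (by positivity) (abs_nonneg C)
    obtain ⟨a, b⟩ := abs_le.1 n5
    rcases n2 with c | c
    · have : (tent n : ℝ) + E < PPL u n := by exact_mod_cast c
      linarith
    · have : (PPL u n : ℝ) + E < tent n := by exact_mod_cast c
      linarith
  · rintro ⟨g, ⟨k, u, rfl⟩, C, hC⟩
    obtain ⟨G, hG, h⟩ := (ppl_near u).approx
    exact ⟨G, hG, shift hα hC (fun n => by have := h n; omega) fun n => by have := h n; omega⟩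
  · rintro ⟨g, hg, C, hC⟩
    obtain ⟨G, -, h⟩ := hg.near.approx
    exact ⟨_, ⟨3, w3 G, rfl⟩,
      shift hα hC (fun n => by have := h n; omega) fun n => by have := h n; omega⟩

end Pool.Agent.Results.MP_9cc368_co.MirrorApprox
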