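import Pool.Agent.Lib.MP_9cc368_co.NpFinal

namespace Pool.Agent.Results.MP_9cc368_co.NPComplete

open Pool.Agent.Lib.MP_9cc368_co

theorem result : N793a5b8e.IsCompleteFor N68a2faeb.NP lang := ⟨lang_mem_NP, lang_hard⟩

end Pool.Agent.Results.MP_9cc368_co.NPComplete
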