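import Pool.Agent.Lib.MP_9cc368_co.PfD

namespace Pool.Agent.Results.MP_9cc368_co.PowerFreeLog

open Pool.Agent.Lib.MP_9cc368_co

theorem result (p : ℕ) (α : Type) (u : ℕ → α) (n K : ℕ)
    (hu : ∀ v : List α, v ≠ [] →
      ¬ (List.replicate p v).flatten <:+: List.ofFn fun i : Fin n => u i) :
    (((Finset.Icc 1 n).filter fun m => PPL u m ≤ K).card : ℝ) ^ 2 ≤
      8 * n * Real.exp ((864 + 1024 * Real.log (2 * p + 6)) * K) :=
  have e : ((2 * p + 6 : ℕ) : ℝ) = 2 * p + 6 := by push_cast; rfl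
  e ▸ Pf.count_le u n K hu

end Pool.Agent.Results.MP_9cc368_co.PowerFreeLog
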