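import Pool.Agent.Lib.MP_9cc368_co.UMain

namespace Pool.Agent.Results.MP_9cc368_co.Undecidable

open Pool.Agent.Lib.MP_9cc368_co

theorem result : ∃ g : ℕ → ℕ, Morphic (fun n => (g (n + 1) : ℤ) - (g n : ℤ)) ∧ g ∈ Realisable ∧
    ¬ REPred fun F : List ℕ => patch F g ∈ Realisable :=
  U.not_re

end Pool.Agent.Results.MP_9cc368_co.Undecidable
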